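import Pool.Agent.W65.CS.Fin

/-!
# MP_b91f88_nt: sums of pairwise coprime squares, all large integers

`g n` is the least number of pairwise coprime positive squares with sum `n`. For every large `n` either `g n ≤ 3`
or `g n` is the explicit function `value (n % 24)` of the residue of `n` modulo `24`. In particular `g n ≤ 10` for
every large `n` with `n % 24 ≠ 2`, `g n ≤ 11` for every large `n`, and for large `n` with `n % 24 = 2` the inequality
`g n ≤ 10` holds exactly if `n` is a sum of at most three pairwise coprime positive squares.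

The proof: four terms are the starting result on Turan's question, further terms are added as squares `1`, and the
lower bound is the congruence condition modulo `24`.
-/

set_option autoImplicit false

namespace Pool.Agent.Results.MP_b91f88_nt.LargeIntegers
open Finset

/-- `n` is a sum of `m` squares of pairwise coprime positive integers -/
def IsSum (m n : ℕ) : Prop :=
  ∃ x : Fin m → ℕ, (∀ i, 0 < x i) ∧ (∀ i j, i ≠ j → Nat.Coprime (x i) (x j)) ∧ ∑ i, x i ^ 2 = n

/-- the least number of squares -/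
noncomputable def g (n : ℕ) : ℕ := sInf {m : ℕ | 1 ≤ m ∧ IsSum m n}

/-- the value of `g n` for large `n` with `g n > 3`, as a function of `n % 24` -/
def value (r : ℕ) : ℕ := [9, 10, 11, 4, 4, 5, 6, 4, 5, 6, 7, 8, 4, 5, 6, 4, 5, 6, 7, 4, 5, 6, 7, 8].getD r 0

/-- the congruence conditions -/
def Cong (m n : ℕ) : Prop :=
  (n % 8 = m % 8 ∨ n % 8 = (m + 3) % 8 ∨ n % 8 = (m + 7) % 8) ∧ (n % 3 = m % 3 ∨ n % 3 = (m + 2) % 3)

lemma isSum_succ (m n : ℕ) (h : IsSum m n) : IsSum (m + 1) (n + 1) := by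
  obtain ⟨x, h1, h2, h3⟩ := h
  refine ⟨Fin.cons 1 x, ?_, ?_, ?_⟩
  · intro i
    refine Fin.cases ?_ (fun i => ?_) i
    · simp
    · simpa using h1 i
  · intro i j
    refine Fin.cases ?_ (fun i => ?_) i
    · intro _
      simp
    · refine Fin.cases ?_ (fun j => ?_) j
      · intro _
        simp
      · intro hij
        simp only [Fin.cons_succ]
        exact h2 i j (fun e => hij (by rw [e]))
  · rw [Fin.sum_univ_succ]
    simp only [Fin.cons_zero, Fin.cons_succ]
    rw [h3]
    ring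

lemma isSum_add (k m n : ℕ) (h : IsSum m n) : IsSum (m + k) (n + k) := by
  induction k with
  | zero => exact h
  | succ k ih => exact isSum_succ _ _ ih

lemma sq_mod8 (x : ℕ) : (x ^ 2 % 8 = 1 ∧ x % 2 = 1) ∨ ((x ^ 2 % 8 = 0 ∨ x ^ 2 % 8 = 4) ∧ x % 2 = 0) := by
  have h : x % 8 < 8 := Nat.mod_lt _ (by norm_num)
  have e : x ^ 2 % 8 = (x % 8) ^ 2 % 8 := by rw [Nat.pow_mod]
  have e2 : x % 2 = (x % 8) % 2 := by omega
  rw [e, e2]
  generalize x % 8 = y at h
  interval_cases y <;> simp

lemma sq_mod3 (x : ℕ) : (x ^ 2 % 3 = 1 ∧ x % 3 ≠ 0) ∨ (x ^ 2 % 3 = 0 ∧ x % 3 = 0) := by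
  have h : x % 3 < 3 := Nat.mod_lt _ (by norm_num)
  have e : x ^ 2 % 3 = (x % 3) ^ 2 % 3 := by rw [Nat.pow_mod]
  rw [e]
  generalize x % 3 = y at h
  interval_cases y <;> simp

lemma cong_of (m n : ℕ) (h : IsSum m n) : Cong m n := by
  obtain ⟨x, h1, h2, h3⟩ := h
  have key : ∀ p : ℕ, p.Prime → ∀ i j, i ≠ j → ¬ (p ∣ x i ∧ p ∣ x j) := by
    rintro p hp i j hij ⟨a, b⟩
    have := Nat.dvd_gcd a b
    rw [Nat.coprime_iff_gcd_eq_one.1 (h2 i j hij)] at this
    exact hp.one_lt.ne' (Nat.dvd_one.1 this)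
  -- modulo 8
  have m8 : n % 8 = m % 8 ∨ n % 8 = (m + 3) % 8 ∨ n % 8 = (m + 7) % 8 := by
    by_cases hev : ∃ i, x i % 2 = 0
    · obtain ⟨i, hi⟩ := hev
      have hodd : ∀ j ∈ Finset.univ.erase i, x j ^ 2 % 8 = 1 := by
        intro j hj
        rw [Finset.mem_erase] at hj
        rcases sq_mod8 (x j) with h | h
        · exact h.1
        · exfalso
          exact key 2 Nat.prime_two i j hj.1.symm ⟨Nat.dvd_of_mod_eq_zero hi, Nat.dvd_of_mod_eq_zero h.2⟩
      have hs : (∑ j ∈ Finset.univ.erase i, x j ^ 2) % 8 = (m - 1) % 8 := by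
        rw [Finset.sum_nat_mod, Finset.sum_congr rfl hodd, Finset.sum_const, Finset.card_erase_of_mem (Finset.mem_univ _),
          Finset.card_univ, Fintype.card_fin, smul_eq_mul, mul_one]
      have hsum : x i ^ 2 + ∑ j ∈ Finset.univ.erase i, x j ^ 2 = n :=
        (Finset.add_sum_erase _ (fun j => x j ^ 2) (Finset.mem_univ i)).trans h3
      have hm : 1 ≤ m := by
        have := i.2
        omega
      rcases sq_mod8 (x i) with h | h
      · omega
      · rcases h.1 with h4 | h4 <;> omega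
    · push Not at hev
      have hodd : ∀ j ∈ (Finset.univ : Finset (Fin m)), x j ^ 2 % 8 = 1 := by
        intro j _
        rcases sq_mod8 (x j) with h | h
        · exact h.1
        · exact absurd h.2 (hev j)
      have hs : (∑ j, x j ^ 2) % 8 = m % 8 := by
        rw [Finset.sum_nat_mod, Finset.sum_congr rfl hodd, Finset.sum_const,
          Finset.card_univ, Fintype.card_fin, smul_eq_mul, mul_one]
      rw [h3] at hs
      left
      exact hs
  -- modulo 3
  have m3 : n % 3 = m % 3 ∨ n % 3 = (m + 2) % 3 := by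
    by_cases hev : ∃ i, x i % 3 = 0
    · obtain ⟨i, hi⟩ := hev
      have hodd : ∀ j ∈ Finset.univ.erase i, x j ^ 2 % 3 = 1 := by
        intro j hj
        rw [Finset.mem_erase] at hj
        rcases sq_mod3 (x j) with h | h
        · exact h.1
        · exfalso
          exact key 3 Nat.prime_three i j hj.1.symm ⟨Nat.dvd_of_mod_eq_zero hi, Nat.dvd_of_mod_eq_zero h.2⟩
      have hs : (∑ j ∈ Finset.univ.erase i, x j ^ 2) % 3 = (m - 1) % 3 := by
        rw [Finset.sum_nat_mod, Finset.sum_congr rfl hodd, Finset.sum_const, Finset.card_erase_of_mem (Finset.mem_univ _),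
          Finset.card_univ, Fintype.card_fin, smul_eq_mul, mul_one]
      have hsum : x i ^ 2 + ∑ j ∈ Finset.univ.erase i, x j ^ 2 = n :=
        (Finset.add_sum_erase _ (fun j => x j ^ 2) (Finset.mem_univ i)).trans h3
      have hm : 1 ≤ m := by
        have := i.2
        omega
      rcases sq_mod3 (x i) with h | h
      · omega
      · omega
    · push Not at hev
      have hodd : ∀ j ∈ (Finset.univ : Finset (Fin m)), x j ^ 2 % 3 = 1 := by
        intro j _
        rcases sq_mod3 (x j) with h | h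
        · exact h.1
        · exact absurd h.2 (hev j)
      have hs : (∑ j, x j ^ 2) % 3 = m % 3 := by
        rw [Finset.sum_nat_mod, Finset.sum_congr rfl hodd, Finset.sum_const,
          Finset.card_univ, Fintype.card_fin, smul_eq_mul, mul_one]
      rw [h3] at hs
      left
      exact hs
  exact ⟨m8, m3⟩

/-- four terms: the starting result -/
lemma four : ∃ N : ℕ, ∀ n : ℕ, N ≤ n → (n % 8 = 3 ∨ n % 8 = 4 ∨ n % 8 = 7) → n % 3 ≠ 2 → IsSum 4 n := by
  obtain ⟨n0, h⟩ := Pool.Agent.W65.CS.main_count (1 / 4000) (by norm_num) le_rfl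
  refine ⟨n0 + 4, ?_⟩
  intro n hn h8 h3
  obtain ⟨S, hS1, hS2⟩ := h n (by omega) h8 h3
  have hn0 : (0 : ℝ) < n := by exact_mod_cast (by omega : 0 < n)
  have hpos : (0 : ℝ) < S.card := lt_of_lt_of_le (Real.rpow_pos_of_pos hn0 _) hS1
  have hne : S.Nonempty := by
    rw [← Finset.card_pos]
    exact_mod_cast hpos
  obtain ⟨X, hX⟩ := hne
  obtain ⟨hsum, hgcd⟩ := hS2 X hX
  have hz : ∀ i, X i ≠ 0 := by
    intro i hi
    have hone : ∀ j, j ≠ i → X j ^ 2 = 1 := by
      intro j hj
      have h1 := hgcd i j hj.symm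
      rw [hi, Int.gcd_zero_left] at h1
      have h2 : ((X j).natAbs : ℤ) ^ 2 = X j ^ 2 := Int.natAbs_sq _
      rw [← h2, h1]
      norm_num
    have h4 : ∑ j ∈ Finset.univ.erase i, X j ^ 2 = 3 := by
      rw [Finset.sum_congr rfl (fun j hj => hone j (Finset.ne_of_mem_erase hj)), Finset.sum_const,
        Finset.card_erase_of_mem (Finset.mem_univ _), Finset.card_univ, Fintype.card_fin]
      norm_num
    have h5 : X i ^ 2 + ∑ j ∈ Finset.univ.erase i, X j ^ 2 = (n : ℤ) :=
      (Finset.add_sum_erase _ (fun j => X j ^ 2) (Finset.mem_univ i)).trans hsum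
    rw [hi, h4] at h5
    norm_num at h5
    omega
  refine ⟨fun i => (X i).natAbs, fun i => Int.natAbs_pos.2 (hz i), ?_, ?_⟩
  · intro i j hij
    exact hgcd i j hij
  · have h6 : ((∑ i, (X i).natAbs ^ 2 : ℕ) : ℤ) = n := by
      push_cast
      rw [← hsum]
      exact Finset.sum_congr rfl (fun i _ => sq_abs (X i))
    exact_mod_cast h6

lemma value_ge (r : ℕ) (hr : r < 24) : 4 ≤ value r ∧ value r ≤ 11 := by
  interval_cases r <;> decide

lemma value_min (r m : ℕ) (hr : r < 24) (h4 : 4 ≤ m) (hm : m < value r) : ¬ Cong m r := by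
  have h11 := (value_ge r hr).2
  have H : ∀ (r : Fin 24) (m : Fin 11), (4 ≤ m.val ∧ m.val < value r.val) →
      ¬ ((r.val % 8 = m.val % 8 ∨ r.val % 8 = (m.val + 3) % 8 ∨ r.val % 8 = (m.val + 7) % 8) ∧
        (r.val % 3 = m.val % 3 ∨ r.val % 3 = (m.val + 2) % 3)) := by
    decide
  exact H ⟨r, hr⟩ ⟨m, by omega⟩ ⟨h4, hm⟩

lemma value_adm (r : ℕ) (hr : r < 24) : (24 + r - (value r - 4)) % 8 = 3 ∧ (24 + r - (value r - 4)) % 3 ≠ 2 ∨
    (24 + r - (value r - 4)) % 8 = 4 ∧ (24 + r - (value r - 4)) % 3 ≠ 2 ∨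
    (24 + r - (value r - 4)) % 8 = 7 ∧ (24 + r - (value r - 4)) % 3 ≠ 2 := by
  interval_cases r <;> decide

/-- **the value of `g n` for large `n`** -/
theorem result : ∃ N : ℕ, ∀ n : ℕ, N ≤ n →
    (g n ≤ 3 ∨ g n = value (n % 24)) ∧ g n ≤ 11 ∧ (n % 24 ≠ 2 → g n ≤ 10) := by
  obtain ⟨N0, h4⟩ := four
  refine ⟨N0 + 100, ?_⟩
  intro n hn
  have hr : n % 24 < 24 := Nat.mod_lt _ (by norm_num)
  obtain ⟨v4, v11⟩ := value_ge _ hr
  have hadm := value_adm _ hr
  set v := value (n % 24) with hv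
  have hrep : IsSum v n := by
    have h5 : IsSum 4 (n - (v - 4)) := by
      apply h4
      · omega
      · omega
      · omega
    have h6 := isSum_add (v - 4) 4 _ h5
    have e1 : 4 + (v - 4) = v := by omega
    have e2 : n - (v - 4) + (v - 4) = n := by omega
    rwa [e1, e2] at h6
  have hle : g n ≤ v := Nat.sInf_le ⟨by omega, hrep⟩
  have hmem : g n ∈ {m : ℕ | 1 ≤ m ∧ IsSum m n} := Nat.sInf_mem ⟨v, by omega, hrep⟩
  have hcase : g n ≤ 3 ∨ g n = v := by
    by_contra hcon
    push Not at hcon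
    have h7 : g n < v := lt_of_le_of_ne hle hcon.2
    have h8 := cong_of _ _ hmem.2
    apply value_min (n % 24) (g n) hr (by omega) h7
    unfold Cong at h8 ⊢
    omega
  refine ⟨hcase, by omega, ?_⟩
  intro h2
  have : v ≤ 10 := by
    rw [hv]
    have h9 : ∀ r < 24, r ≠ 2 → value r ≤ 10 := by decide
    exact h9 _ hr h2
  omega

end Pool.Agent.Results.MP_b91f88_nt.LargeIntegers
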